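import Pool.Agent.H.MP_9991fb_an.F

namespace Pool.Agent.Results.MP_c85420_an.Yes

theorem result : ∃ (X : Type) (_ : NormedAddCommGroup X) (_ : NormedSpace ℝ X)
    (_ : CompleteSpace X),
    (∀ (T : Type) [NormedAddCommGroup T] [NormedSpace ℝ T] [FiniteDimensional ℝ T]
      (S : Submodule ℝ T) (f : S →ₗᵢ[ℝ] X), ∃ g : T →ₗᵢ[ℝ] X, ∀ s : S, g s = f s) ∧
    (∀ (E F : Submodule ℝ X), FiniteDimensional ℝ E → FiniteDimensional ℝ F →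
      ∀ h : E ≃ₗᵢ[ℝ] F, ∃ U : X ≃ₗᵢ[ℝ] X, ∀ e : E, U e = h e) ∧
    ∃ (T : Type) (_ : NormedAddCommGroup T) (_ : NormedSpace ℝ T) (_ : CompleteSpace T)
      (_ : TopologicalSpace.SeparableSpace T) (S : Submodule ℝ T) (f : S →ₗᵢ[ℝ] X),
      IsClosed (S : Set T) ∧ ¬ ∃ g : T →ₗᵢ[ℝ] X, ∀ s : S, g s = f s := by
  obtain ⟨X, i1, i2, i3, v, F⟩ := Pool.Agent.H.MP_9991fb_an.exFr (Γ := Unit) 0 True le_rfl
  obtain ⟨φ, -, h2⟩ := F.total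
  refine ⟨X, i1, i2, i3, fun T _ _ _ S f => ?_, fun E E' _ _ h => F.homog E E' h,
    Pool.Agent.H.MP_9991fb_an.notUD φ h2⟩
  have := FiniteDimensional.proper_real T
  exact F.ud (fun _ => inferInstance) f S.subtypeₗᵢ

end Pool.Agent.Results.MP_c85420_an.Yes
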